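import Mathlib
import Pool.Agent.H83.Tcd1

/-!
Q2: the degree of the halting problem is the degree of topological categoricity of the discrete
space of natural numbers.
-/

set_option autoImplicit false

namespace Pool.Agent.Results.MP_55a818_lc.Halting

open Pool.Agent.H83.Tcc Pool.Agent.H37

/-- the diagonal halting set -/
def Halt (e : ℕ) : Prop := (Nat.Partrec.Code.eval (Denumerable.ofNat Nat.Partrec.Code e) e).Dom

theorem result : REPred Halt ∧ ¬ ComputablePred Halt ∧ IsCompPolish ℕ ∧ IsDegCat (chi Halt) ℕ := by
  have e : ∀ n, Halt n ↔ ∃ s, Kst n s = true := fun n => by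
    simp only [Halt, Part.dom_iff_mem, ev_iff, Kst, Option.isSome_iff_exists]
    exact exists_comm
  refine ⟨re_of_nat Kst (by fun_prop) e, fun h => ?_, ⟨natPres, ⟨Homeomorph.refl ℕ⟩⟩, nat_cat,
    fun A hA => ?_⟩
  · obtain ⟨f, hf, h⟩ := computablePred_iff.1 h
    exact K_not_computable f hf fun n => (h n).symm.trans (e n)
  · rw [show Halt = fun n => ∃ s, Kst n s = true from funext fun n => propext (e n)]
    exact (nat_lower A hA).ri

end Pool.Agent.Results.MP_55a818_lc.Halting
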