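import Mathlib
import Pool.Agent.H83.Tcd8

/-!
Q1: there is a c.e. set `S` whose degree is not the degree of topological categoricity of any
computable Polish space.
-/

set_option autoImplicit false

namespace Pool.Agent.Results.MP_55a818_lc.NotAll

open Pool.Agent.H83.Tcc Pool.Agent.H37

theorem result : ∃ S : ℕ → Prop, REPred S ∧ ¬ ComputablePred S ∧
    (∀ (X : Type) [TopologicalSpace X] [Infinite X], IsCompPolish X → ¬ CatIn (chi S) X) ∧
    ∀ (X : Type) [TopologicalSpace X], IsCompPolish X → ¬ IsDegCat (chi S) X := by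
  obtain ⟨V, hV⟩ := exists_vp
  have hinf : ∀ (X : Type) [TopologicalSpace X] [Infinite X], IsCompPolish X →
      ¬ CatIn (chi V.D) X := by
    rintro X _ _ ⟨P, ⟨e⟩⟩ h
    have : Infinite P.Y := e.toEquiv.infinite_iff.2 ‹_›
    obtain ⟨M, N, ⟨h1⟩, ⟨h2⟩, h3⟩ := mainD hV P
    obtain ⟨f, hf⟩ := h M N ⟨h1.trans e⟩ ⟨h2.trans e⟩
    exact h3 f f.bijective hf
  refine ⟨V.D, hV.re_D, fun h => ?_, hinf, fun X _ hX h => ?_⟩
  · obtain ⟨f, hf, h⟩ := computablePred_iff.1 h
    refine hV.not_ci ?_
    have e : chi V.D = fun n => (f n).toNat := funext fun n => by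
      by_cases hn : V.D n
      · simp [chi, hn, (h n).1 hn]
      · have : f n = false := by simpa using fun hf => hn ((h n).2 hf)
        simp [chi, hn, this]
    rw [e]
    exact hf.toNat
  · rcases finite_or_infinite X with hf | hf
    · have h1 : CI (orc fun _ => 0) (chi V.D) := CI.of_ri (h.2 _ (finite_cat X))
      exact hV.not_ci (h1.trans (CI.const 0))
    · exact hinf X hX h.1

end Pool.Agent.Results.MP_55a818_lc.NotAll
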